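import Pool.Agent.Q47.AB.Exp
import Pool.Agent.Q29.EqCo
import Pool.Agent.Q29.MzBd
import Pool.Agent.Results.MP_56e040_nt.BoundedDepthTerms

/-!
# Quotients of multiple zeta values of the same weight: multiples by the elements of two arbitrary dense sets

Let `β_0 = 1, β_1, …, β_l` be real algebraic numbers, linearly independent over the rationals. We consider some of the numbers
`β_i ζ(v_j) / ζ(v_0)` for any `N + 1` different admissible indices `v_0, v_1, …, v_N` of the same weight `k`, of depth at most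
`r` and with first argument (the one of the largest variable) at least `δ k`.
There is `D > 1` such that for all `E`, `K` and `η > 0` there is `κ > 0` such that for all large `k` and all `M` with
`D ^ k ≤ M ≤ E ^ k` every combination `x` of these numbers with integer coefficients at most `M ^ κ`, not all zero, has the
following property: for ALL dense sets `A` of integers below `M` and `B` of integers below `H`, `H ≥ M ^ η`, all real numbers
`y_a` and real polynomials `R_c` of degree less than `k ≤ K`, the numbers `b x a ^ k c + R_c(a) + y_a`, `(a, c) ∈ A × B`, are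
uniformly distributed modulo one with a power saving.

The proof uses the measure of the starting hand-in `BoundedDepthTerms`, a bilinear estimate and an inverse theorem for the
sums of Weyl (`Q47/DG/EqdK`, `Q47/AB/Exp`, `H373R2/NB`).
-/

set_option autoImplicit false

namespace Pool.Agent.Results.MP_56e040_nt.PairsFromDenseSets

open Finset Polynomial

/-- Polynomials over two dense sets are uniformly distributed at the scale `M`, with a power saving: for all integers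
`b ≠ 0` with `|b| ≤ M ^ κ`, all degrees `1 ≤ k ≤ K`, all integers `H ≥ M ^ η`, ALL sets `A` of integers in `[0, M)` and `B` of
integers in `[0, H)` with `|A| |B| ≥ M ^ (1 - κ) H`, all real numbers `y_a`, all real polynomials `R_c` of degree less than
`k` and all `0 ≤ u ≤ v ≤ 1`, the number of the pairs `(a, c) ∈ A × B` with the fractional part of
`b x a ^ k c + R_c(a) + y_a` in `[u, v)` is `(v - u) |A| |B|`, up to `|A| |B| M ^ (-κ)`. -/
def PGood (K : ℕ) (η κ : ℝ) (M : ℕ) (x : ℝ) : Prop :=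
  ∀ b : ℤ, b ≠ 0 → |(b : ℝ)| ≤ (M : ℝ) ^ κ → ∀ k : ℕ, 1 ≤ k → k ≤ K → ∀ H : ℕ, (M : ℝ) ^ η ≤ H →
    ∀ A B : Finset ℕ, (∀ a ∈ A, a < M) → (∀ c ∈ B, c < H) → (M : ℝ) ^ (1 - κ) * H ≤ #A * #B →
    ∀ (y : ℕ → ℝ) (R : ℕ → ℝ[X]), (∀ c, (R c).degree < k) → ∀ u v : ℝ, 0 ≤ u → u ≤ v → v ≤ 1 →
      |(#{i ∈ A ×ˢ B | u ≤ Int.fract (b * x * i.1 ^ k * i.2 + (R i.2).eval (i.1 : ℝ) + y i.1) ∧
          Int.fract (b * x * i.1 ^ k * i.2 + (R i.2).eval (i.1 : ℝ) + y i.1) < v} : ℝ) -
        (v - u) * (#A * #B)| ≤ #A * #B * (M : ℝ) ^ (-κ)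

theorem pgood_iff (K : ℕ) (η κ : ℝ) (M : ℕ) (x : ℝ) : PGood K η κ M x ↔ Pool.Agent.Q47.DG.PGood K η κ M x := Iff.rfl

/-- Every combination of the coordinates of `x` with integer coefficients at most `M ^ κ`, not all zero, has the property
`PGood`. -/
def Pairs (K : ℕ) (η κ : ℝ) (M : ℕ) {s : ℕ} (x : Fin s → ℝ) : Prop :=
  ∀ l : Fin s → ℤ, l ≠ 0 → (∀ i, |(l i : ℝ)| ≤ (M : ℝ) ^ κ) → PGood K η κ M (∑ i, (l i : ℝ) * x i)

/-- truncated multiple sums: `trunc [s_1, ..., s_r] m` is the sum of `∏ n_i ^ (-s_i)` over `m > n_1 > ... > n_r ≥ 1` -/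
noncomputable def trunc : List ℕ → ℕ → ℝ
  | [], _ => 1
  | s :: l, m => ∑ j ∈ Finset.Ico 1 m, trunc l j / (j : ℝ) ^ s

/-- the multiple zeta value, the sum of `∏ n_i ^ (-s_i)` over `n_1 > ... > n_r ≥ 1` -/
noncomputable def mzv : List ℕ → ℝ
  | [] => 1
  | s :: l => ∑' m : ℕ, trunc l (m + 1) / ((m + 1 : ℕ) : ℝ) ^ s

/-- the admissible indices of weight `k` and depth at most `r`, with first argument at least `δ k` -/
def Index (r : ℕ) (δ : ℝ) (k : ℕ) (v : List ℕ) : Prop :=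
  (∀ m ∈ v, 1 ≤ m) ∧ (∀ m ∈ v.head?, 2 ≤ m ∧ δ * k ≤ m) ∧ v.sum = k ∧ v.length ≤ r

theorem trunc_eq (w : List ℕ) : ∀ m, trunc w m = Pool.Agent.Y760.ZG.hr w m := by
  induction w with
  | nil => intro m; rw [trunc, Pool.Agent.Y760.ZG.hr_nil]
  | cons s w ih =>
    intro m
    rw [trunc, Pool.Agent.Y760.ZG.hr_cons]
    exact Finset.sum_congr rfl fun j _ => by rw [ih]

theorem mzv_eq (w : List ℕ) : mzv w = Pool.Agent.Y760.ZG.mz w := by
  cases w with
  | nil => rw [mzv, Pool.Agent.Y760.ZG.mz]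
  | cons s w =>
    rw [mzv, Pool.Agent.Y760.ZG.mz]
    exact tsum_congr fun m => by rw [trunc_eq]

/-- **Quotients of multiple zeta values of the same weight: every small combination has equidistributed multiples over two
arbitrary dense sets.** -/
theorem result {l N s : ℕ} (β : Fin (l + 1) → ℝ) (hβ : ∀ j, IsAlgebraic ℚ (β j)) (hβ0 : β 0 = 1)
    (hβi : LinearIndependent ℚ β) (f : Fin s → Fin (l + 1) × Fin N) (hf : Function.Injective f)
    (r : ℕ) (δ : ℝ) (hδ : 0 < δ) :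
    ∃ D : ℝ, 1 < D ∧ ∀ (E : ℝ) (K : ℕ) (η : ℝ), 0 < η → ∃ κ : ℝ, 0 < κ ∧ ∃ k0 : ℕ, ∀ k : ℕ, k0 ≤ k →
      ∀ (v₀ : List ℕ) (v : Fin N → List ℕ), Index r δ k v₀ → Function.Injective v → (∀ j, Index r δ k (v j) ∧ v j ≠ v₀) →
      ∀ M : ℕ, D ^ k ≤ (M : ℝ) → (M : ℝ) ≤ E ^ k → Pairs K η κ M (fun i => β (f i).1 * (mzv (v (f i).2) / mzv v₀)) := by
  classical
  obtain ⟨X, hXE⟩ : ∃ X : ℝ, X = (r + 1) * (1 + 2 * ∑ j, |β j|) := ⟨_, rfl⟩
  have hS0 : 0 ≤ ∑ j, |β j| := Finset.sum_nonneg fun j _ => abs_nonneg _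
  have hr0 : (0 : ℝ) ≤ r := Nat.cast_nonneg r
  have hX : 1 ≤ X := by rw [hXE]; nlinarith
  have hβX : ∀ j, |β j| * 2 ≤ 1 + 2 * ∑ j, |β j| := fun j => by
    have := Finset.single_le_sum (f := fun j => |β j|) (fun j _ => abs_nonneg _) (mem_univ j)
    linarith
  obtain ⟨B, hB, n0, hmain⟩ :=
    Pool.Agent.Results.MP_56e040_nt.BoundedDepthTerms.result β hβ hβi (N + 1) r δ 1 (2 * X) hδ one_pos
  refine ⟨(2 * B) ^ 2, one_lt_pow₀ (by linarith) (by norm_num), fun E K η hη => ?_⟩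
  obtain ⟨κ, hκ, n₁, hjoint⟩ := Pool.Agent.Q47.AB.comb_exp (PGood K η)
    (Pool.Agent.Q47.DG.Abs.engine_prod K η hη) s 2 (2 * B) X E (by norm_num) (by linarith) hX
  obtain ⟨n₂, hn₂⟩ := exists_nat_ge (((r : ℝ) + 1) / δ)
  refine ⟨κ, hκ, n0 + n₁ + n₂ + 2, fun k hk v₀ v hv₀ hv hvI M hDM hME => ?_⟩
  intro lc hlc0 hlc
  have hrk : (r : ℝ) + 1 ≤ δ * k := by
    have h1 : ((r : ℝ) + 1) / δ ≤ k := hn₂.trans (by exact_mod_cast (by omega : n₂ ≤ k))
    rw [div_le_iff₀ hδ] at h1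
    linarith
  have hhead : ∀ u, Index r δ k u → ∀ t ∈ u.head?, u.length + 1 ≤ t := by
    intro u hu t ht
    have h1 := (hu.2.1 t ht).2
    have h2 : ((u.length + 1 : ℕ) : ℝ) ≤ t := by
      have h3 : ((u.length : ℕ) : ℝ) ≤ r := by exact_mod_cast hu.2.2.2
      push_cast
      linarith
    exact_mod_cast h2
  have hup : ∀ u, Index r δ k u → |mzv u| ≤ 2 := fun u hu => by
    rw [mzv_eq]
    exact Pool.Agent.Q29.Eqd.abs_mz_le _ (hhead u hu)
  have hlow : ((((r : ℝ) + 1) ^ k))⁻¹ ≤ mzv v₀ := by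
    have h1 := Pool.Agent.Q29.Eqd.mz_ge (r + 1) (by omega) v₀ (hv₀.2.2.2.trans (by omega)) (hhead v₀ hv₀)
    rw [hv₀.2.2.1] at h1
    push_cast at h1
    rw [mzv_eq]
    exact h1
  have hpos : 0 < mzv v₀ := lt_of_lt_of_le (by positivity) hlow
  have hle2 : mzv v₀ ≤ 2 := (le_abs_self _).trans (hup v₀ hv₀)
  have hmz : ∀ w : List ℕ, Pool.Agent.Results.MP_56e040_nt.BoundedDepthTerms.mzv w = mzv w := fun w => by
    rw [Pool.Agent.Results.MP_56e040_nt.BoundedDepthTerms.mzv_eq, mzv_eq]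
  refine hjoint k (by omega) _ (fun i => ?_) (fun w a hw hwA haA => ?_) M hDM hME lc hlc0 hlc
  · rw [abs_mul, abs_div, abs_of_pos hpos]
    have h5 := hup _ (hvI (f i).2).1
    have h6 : (mzv v₀)⁻¹ ≤ ((r : ℝ) + 1) ^ k := by
      rw [← inv_inv (((r : ℝ) + 1) ^ k)]
      exact inv_anti₀ (by positivity) hlow
    calc |β (f i).1| * (|mzv (v (f i).2)| / mzv v₀) = (|β (f i).1| * |mzv (v (f i).2)|) * (mzv v₀)⁻¹ := by
          rw [div_eq_mul_inv, mul_assoc]
      _ ≤ (|β (f i).1| * 2) * ((r : ℝ) + 1) ^ k :=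
          mul_le_mul (mul_le_mul_of_nonneg_left h5 (abs_nonneg _)) h6 (by positivity) (by positivity)
      _ ≤ (1 + 2 * ∑ j, |β j|) * ((r : ℝ) + 1) ^ k := mul_le_mul_of_nonneg_right (hβX _) (by positivity)
      _ ≤ (1 + 2 * ∑ j, |β j|) ^ k * ((r : ℝ) + 1) ^ k := by
          refine mul_le_mul_of_nonneg_right ?_ (by positivity)
          exact le_self_pow₀ (by linarith) (by omega)
      _ = X ^ k := by rw [← mul_pow, hXE, mul_comm]
  · obtain ⟨co, hco1, ⟨i, hi⟩, hco2⟩ := Pool.Agent.Q29.Eqd.forms ((0, v₀) : Fin (l + 1) × List ℕ)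
      (fun k => ((f k).1, v (f k).2)) (fun k k' h => by
        have h1 := Prod.ext_iff.1 h
        exact hf (Prod.ext h1.1 (hv h1.2))) (fun k h => (hvI (f k).2).2 (Prod.ext_iff.1 h).2)
      (insert v₀ (univ.image v)) (mem_insert_self _ _)
      (fun k => mem_insert_of_mem (mem_image_of_mem v (mem_univ _))) w a hw ((2 * X) ^ k)
      (fun i => (hwA i).trans (pow_le_pow_left₀ (by norm_num) (by linarith) k)) haA
      (fun j u => β j * (mzv u / mzv v₀)) (by
        show β 0 * (mzv v₀ / mzv v₀) = 1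
        rw [hβ0, div_self hpos.ne', one_mul])
    have h1 := hmain k (by omega) (insert v₀ (univ.image v)) ∅ (by
        refine (Finset.card_insert_le _ _).trans ?_
        have := Finset.card_image_le (s := (univ : Finset (Fin N))) (f := v)
        rw [Finset.card_univ, Fintype.card_fin] at this
        omega)
      (by
        have h2 : ∀ u, Index r δ k u → Pool.Agent.Results.MP_56e040_nt.BoundedDepthTerms.Admissible k u ∧
            ∀ s ∈ u.head?, δ * k ≤ s := fun u hu =>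
          ⟨⟨hu.1, fun t ht => (hu.2.1 t ht).1, hu.2.2.1⟩, fun t ht => (hu.2.1 t ht).2⟩
        intro u hu
        rcases mem_insert.1 hu with rfl | hu
        · exact h2 _ hv₀
        · obtain ⟨j, -, rfl⟩ := mem_image.1 hu
          exact h2 _ (hvI j).1)
      (by simp) co (fun _ => 0)
      ⟨v (f i).2, mem_insert_of_mem (mem_image_of_mem v (mem_univ _)), (hvI (f i).2).1.2.2.2, fun h0 => hi (congrFun h0 _)⟩
      (fun u _ j => hco1 u j) (by simp)
    rw [Finset.sum_empty, sub_zero] at h1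
    have h3 : ∑ u ∈ insert v₀ (univ.image v), (∑ j, (co u j : ℝ) * β j) *
        Pool.Agent.Results.MP_56e040_nt.BoundedDepthTerms.mzv u =
        mzv v₀ * (∑ k, (w k : ℝ) * (β (f k).1 * (mzv (v (f k).2) / mzv v₀)) - a) := by
      rw [← hco2, Finset.mul_sum]
      refine Finset.sum_congr rfl fun u _ => ?_
      rw [hmz, Finset.sum_mul, Finset.mul_sum]
      refine Finset.sum_congr rfl fun j _ => ?_
      field_simp
    rw [h3, abs_mul, abs_of_pos hpos] at h1
    have h4 : (B ^ k)⁻¹ < 2 * |∑ k, (w k : ℝ) * (β (f k).1 * (mzv (v (f k).2) / mzv v₀)) - a| :=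
      lt_of_lt_of_le h1 (mul_le_mul_of_nonneg_right hle2 (abs_nonneg _))
    have h5 : ((2 * B) ^ k)⁻¹ ≤ (B ^ k)⁻¹ / 2 := by
      rw [mul_pow, mul_inv, mul_comm, div_eq_mul_inv]
      refine mul_le_mul_of_nonneg_left ?_ (by positivity)
      exact inv_anti₀ (by norm_num) (le_self_pow₀ (by norm_num) (by omega))
    linarith

end Pool.Agent.Results.MP_56e040_nt.PairsFromDenseSets
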