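import Pool.Agent.Q217.CD.MZV

/-!
# Superadditivity of the dimensions of the spaces of multiple zeta values

Let `K` be a field with an embedding in `ℝ` (for example `ℚ`, or the field of the real algebraic
numbers) and let `Z K n r` be the `K`-span of the multiple zeta values of weight `n` and depth at most
`r`; for `r = n` this is the span of all the multiple zeta values of weight `n`.

1. `dim Z (m + n, r + s) ≥ dim Z (m, r) + dim Z (n, s) - 1`, unless both `Z (m, r)` and `Z (n, s)`
   contain two elements whose quotient is algebraic over `K` but not in `K`.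
2. Iterating, `dim Z (q k + n, q r + s) ≥ dim Z (n, s) + q (dim Z (k, r) - 1)`, unless `Z (k, r)` is
   exceptional in this sense; so the dimensions grow at least linearly, with the slope
   `(dim Z_k - 1) / k`, for each weight `k`.
3. Over the field of the real algebraic numbers there is no exception.

The proof uses a linear analogue of the theorem of Cauchy and Davenport.
-/

set_option autoImplicit false

open Module

namespace Pool.Agent.Results.MP_56e040_nt.Superadditivity

/-- The multiple zeta value `ζ(k_1, ..., k_t)`, the sum over `m_1 > ... > m_t ≥ 1`. -/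
noncomputable def mzv {t : ℕ} (k : Fin t → ℕ) : ℝ :=
  ∑' m : {m : Fin t → ℕ // StrictAnti m ∧ ∀ i, 1 ≤ m i}, ∏ i, (((m.1 i : ℕ) : ℝ) ^ (k i))⁻¹

/-- The `K`-span of the multiple zeta values of weight `n` and depth at most `r`. -/
noncomputable def Z (K : Type*) [Field K] [Algebra K ℝ] (n r : ℕ) : Submodule K ℝ :=
  Submodule.span K {x : ℝ | ∃ t : ℕ, t ≤ r ∧ ∃ k : Fin t → ℕ,
    (∀ i, 1 ≤ k i) ∧ (∀ h : 0 < t, 2 ≤ k ⟨0, h⟩) ∧ (∑ i, k i) = n ∧ x = mzv k}

/-- Its dimension. -/
noncomputable def dim (K : Type*) [Field K] [Algebra K ℝ] (n r : ℕ) : ℕ := finrank K (Z K n r)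

/-- `W` contains two elements whose quotient is algebraic over `K`, but not in `K`. -/
def Exceptional (K : Type*) [Field K] [Algebra K ℝ] (W : Submodule K ℝ) : Prop :=
  ∃ x ∈ W, ∃ y ∈ W, y ≠ 0 ∧ IsAlgebraic K (x / y) ∧ x / y ∉ Set.range (algebraMap K ℝ)

/-- The pairs of a weight and a bound for the depth such that there is an admissible index:
`n = 0`, or `n ≥ 2` and `r ≥ 1`. -/
def Ok (n r : ℕ) : Prop := n = 0 ∨ (2 ≤ n ∧ 1 ≤ r)

/-- The field of the real algebraic numbers. -/
abbrev RealAlg : Type := algebraicClosure ℚ ℝ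

theorem Z_eq (K : Type*) [Field K] [Algebra K ℝ] (n r : ℕ) : Z K n r = Q217.CD.Zr K n r := by
  unfold Z Q217.CD.Zr mzv
  congr 1
  ext x
  constructor
  · rintro ⟨t, htr, k, h1, h2, h3, rfl⟩
    have hk : H447R2.MZ.Adm (List.ofFn k) := by
      refine ⟨fun a ha => ?_, fun a s hs => ?_⟩
      · rw [List.mem_ofFn] at ha
        obtain ⟨i, rfl⟩ := ha
        exact h1 i
      · rcases t with _ | t
        · simp at hs
        · rw [List.ofFn_succ] at hs
          have := h2 (Nat.succ_pos t)
          have e := (List.cons.inj hs).1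
          rw [← e]
          exact this
    exact ⟨List.ofFn k, hk, by rw [List.sum_ofFn, h3], by simpa using htr,
      (H447R2.MZ.hasSum_val t k hk).tsum_eq⟩
  · rintro ⟨s, hs, h3, hr, rfl⟩
    refine ⟨s.length, hr, s.get, fun i => hs.1 _ (List.get_mem s i), fun h => ?_, ?_, ?_⟩
    · rcases s with _ | ⟨a, s⟩
      · simp at h
      · exact hs.2 a s rfl
    · rw [← List.sum_ofFn, List.ofFn_get, h3]
    · have hk : H447R2.MZ.Adm (List.ofFn s.get) := by rw [List.ofFn_get]; exact hs
      rw [(H447R2.MZ.hasSum_val s.length s.get hk).tsum_eq, List.ofFn_get]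

theorem dim_eq (K : Type*) [Field K] [Algebra K ℝ] (n r : ℕ) :
    dim K n r = finrank K (Q217.CD.Zr K n r) := by
  unfold dim
  rw [Z_eq]

theorem not_exceptional (K : Type*) [Field K] [Algebra K ℝ]
    (hK : ∀ x : ℝ, IsAlgebraic K x → x ∈ Set.range (algebraMap K ℝ)) (W : Submodule K ℝ) :
    ¬ Exceptional K W := by
  rintro ⟨x, _, y, _, _, h1, h2⟩
  exact h2 (hK _ h1)

theorem realAlg (x : ℝ) (hx : IsAlgebraic RealAlg x) : x ∈ Set.range (algebraMap RealAlg ℝ) := by
  have h1 : IsAlgebraic ℚ x := by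
    have : Algebra.IsAlgebraic ℚ RealAlg := algebraicClosure.isAlgebraic ℚ ℝ
    exact hx.restrictScalars ℚ
  exact ⟨⟨x, (mem_algebraicClosure_iff).2 h1⟩, rfl⟩

theorem result :
    (∀ (K : Type) [Field K] [Algebra K ℝ],
      (∀ n r, FiniteDimensional K (Z K n r)) ∧
      (∀ m r n s, Ok m r → Ok n s →
        dim K m r + dim K n s ≤ dim K (m + n) (r + s) + 1 ∨
          (Exceptional K (Z K m r) ∧ Exceptional K (Z K n s))) ∧
      (∀ k r, Ok k r → Exceptional K (Z K k r) ∨ ∀ q n s, Ok n s →
        dim K n s + q * dim K k r ≤ dim K (q * k + n) (q * r + s) + q) ∧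
      (∀ k, 2 ≤ k → Exceptional K (Z K k k) ∨ ∀ n, 2 ≤ n →
        (n / k - 1) * (dim K k k - 1) + 1 ≤ dim K n n) ∧
      (∀ n r, dim K n r ≤ dim ℚ n r)) ∧
    (∀ m r n s, Ok m r → Ok n s →
      dim RealAlg m r + dim RealAlg n s ≤ dim RealAlg (m + n) (r + s) + 1) ∧
    (∀ k n, 2 ≤ k → 2 ≤ n →
      (n / k - 1) * (dim RealAlg k k - 1) + 1 ≤ dim RealAlg n n ∧ dim RealAlg n n ≤ dim ℚ n n) := by
  have key : ∀ (K : Type) [Field K] [Algebra K ℝ],
      (∀ n r, FiniteDimensional K (Z K n r)) ∧
      (∀ m r n s, Ok m r → Ok n s →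
        dim K m r + dim K n s ≤ dim K (m + n) (r + s) + 1 ∨
          (Exceptional K (Z K m r) ∧ Exceptional K (Z K n s))) ∧
      (∀ k r, Ok k r → Exceptional K (Z K k r) ∨ ∀ q n s, Ok n s →
        dim K n s + q * dim K k r ≤ dim K (q * k + n) (q * r + s) + q) ∧
      (∀ k, 2 ≤ k → Exceptional K (Z K k k) ∨ ∀ n, 2 ≤ n →
        (n / k - 1) * (dim K k k - 1) + 1 ≤ dim K n n) ∧
      (∀ n r, dim K n r ≤ dim ℚ n r) := by
    intro K _ _
    refine ⟨?_, ?_, ?_, ?_, ?_⟩
    · intro n r
      rw [Z_eq]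
      infer_instance
    · intro m r n s h1 h2
      simp only [dim_eq]
      rw [Z_eq, Z_eq]
      exact Q217.CD.super' K m n r s (Q217.CD.ne_bot K m r h1) (Q217.CD.ne_bot K n s h2)
    · intro k r h1
      by_cases h : Exceptional K (Z K k r)
      · exact Or.inl h
      · right
        intro q n s h2
        rw [Z_eq] at h
        simp only [dim_eq]
        exact Q217.CD.iter K k r n s (Q217.CD.ne_bot K k r h1) (Q217.CD.ne_bot K n s h2) h q
    · intro k hk
      by_cases h : Exceptional K (Z K k k)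
      · exact Or.inl h
      · right
        intro n hn
        rw [Z_eq] at h
        simp only [dim_eq]
        exact Q217.CD.linear K k hk h n hn
    · intro n r
      rw [dim_eq, dim_eq]
      exact Q217.CD.le_rat K n r
  refine ⟨key, ?_, ?_⟩
  · intro m r n s h1 h2
    rcases (key RealAlg).2.1 m r n s h1 h2 with h | h
    · exact h
    · exact absurd h.1 (not_exceptional RealAlg realAlg _)
  · intro k n hk hn
    refine ⟨?_, (key RealAlg).2.2.2.2 n n⟩
    rcases (key RealAlg).2.2.2.1 k hk with h | h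
    · exact absurd h (not_exceptional RealAlg realAlg _)
    · exact h n hn

end Pool.Agent.Results.MP_56e040_nt.Superadditivity
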