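import Pool.Agent.Q263.ZO.Graded

/-!
# A zero-one law for Zagier's dimension conjecture

Let `Z n` be the `ℚ`-span of the multiple zeta values of weight `n` (`Zs n`), `h n` its dimension, and
`d n` the numbers `1, 0, 1, 1, 1, 2, 2, 3, 4, 5, 7, ...` of the conjecture. We use the known theorem of
Goncharov, Deligne and Brown that the multiple zeta values are the images of a graded algebra `H` of
motivic multiple zeta values under a homomorphism, where `H` has dimension `d n` in weight `n` and is an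
integral domain (even a polynomial ring) (`Motivic`). So `h n ≤ d n`. Theorem:

1. One weight with too small a dimension has an effect in all larger weights: if `h n < d n`, then
   `h N ≤ d N - d (N - n)` for all `N ≥ n`, in particular `h N ≤ (1 - 2 ^ (-n)) d N` for `N ≥ n + 2`.
2. Either `h n = d n` for all `n`, or the set of the weights `n` with `h n = d n` is `{0, ..., m}` or
   `{0, ..., m, m + 2}` for some `m ≥ 4`; then `h N ≤ d N - d (N - m - 1)` for all `N > m`.
3. Zagier's conjecture holds if and only if `h N = d N` for infinitely many `N`.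
4. It holds if and only if `limsup h N / d N = 1`: if for every `ε > 0` there are arbitrarily large
   `N` with `h N > (1 - ε) d N`.
5. It holds if and only if for every `n` there is one `N ≥ n` with `h N > d N - d (N - n)`. More
   precisely one such `N` suffices for the conjecture in weight `n`.

`Conjecture` is the statement of `S17003`.
-/

set_option autoImplicit false

open Module Filter

namespace Pool.Agent.Results.MP_56e040_nt.ZeroOneLaw

open Pool.Agent.Q263.ZO Pool.Agent.H447R2.MZ

/-- Zagier's dimension conjecture, in the words of `S17003` -/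
def Conjecture : Prop :=
  ∀ d : ℕ → ℕ, d 0 = 1 → d 1 = 0 → d 2 = 1 →
    (∀ n : ℕ, 3 ≤ n → d n = d (n - 2) + d (n - 3)) →
    ∀ n : ℕ,
      Module.rank ℚ
        (Submodule.span ℚ
          {x : ℝ | ∃ k : ℕ, ∃ s : Fin k → ℕ,
            (∀ i, 1 ≤ s i) ∧ (∀ h : 0 < k, 2 ≤ s ⟨0, h⟩) ∧ (∑ i, s i) = n ∧
            x = ∑' m : {m : Fin k → ℕ // StrictAnti m ∧ ∀ i, 0 < m i},
                  ∏ i, (((m.1 i : ℕ) : ℝ) ^ (s i))⁻¹}) = (d n : Cardinal)

theorem conjecture_iff (M : Motivic Zs) : Conjecture ↔ ∀ n, finrank ℚ (Zs n) = d n := by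
  haveI := M.finite
  constructor
  · intro h n
    have h1 := h d (by simp [d]) (by simp [d]) (by simp [d]) (fun n hn => by
      obtain ⟨m, rfl⟩ := Nat.exists_eq_add_of_le' hn
      rw [d_rec]; rfl) n
    have h2 : Module.rank ℚ (Zs n) = (d n : Cardinal) := h1
    exact finrank_eq_of_rank_eq h2
  · intro h e h0 h1 h2 h3 n
    have h4 := d_unique e h0 h1 h2 h3
    subst h4
    have h5 : Module.rank ℚ (Zs n) = (d n : Cardinal) := by
      rw [← finrank_eq_rank, h n]
    exact h5

theorem result (M : Motivic Zs) :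
    (∀ n N, n ≤ N → finrank ℚ (Zs n) ≠ d n → finrank ℚ (Zs N) + d (N - n) ≤ d N) ∧
    (∀ n N, n + 2 ≤ N → finrank ℚ (Zs n) ≠ d n → 2 ^ n * finrank ℚ (Zs N) ≤ (2 ^ n - 1) * d N) ∧
    (Conjecture ∨ ∃ m, 4 ≤ m ∧ ({n | finrank ℚ (Zs n) = d n} = Set.Iic m ∨
        {n | finrank ℚ (Zs n) = d n} = insert (m + 2) (Set.Iic m)) ∧
      ∀ N, m < N → finrank ℚ (Zs N) + d (N - (m + 1)) ≤ d N) ∧
    (Conjecture ↔ ∃ᶠ N in atTop, finrank ℚ (Zs N) = d N) ∧
    (Conjecture ↔ ∀ ε : ℝ, 0 < ε → ∃ᶠ N in atTop, (1 - ε) * d N < finrank ℚ (Zs N)) ∧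
    (∀ n, (∃ N, n ≤ N ∧ d N < finrank ℚ (Zs N) + d (N - n)) → finrank ℚ (Zs n) = d n) ∧
    (Conjecture ↔ ∀ n, ∃ N, n ≤ N ∧ d N < finrank ℚ (Zs N) + d (N - n)) := by
  refine ⟨fun n N hN h => M.step n N hN h, fun n N hN h => M.ratio n h N hN, ?_, ?_, ?_, ?_, ?_⟩
  · rw [conjecture_iff M]
    exact M.dichotomy M.low
  · rw [conjecture_iff M]
    exact M.iff_frequently
  · rw [conjecture_iff M]
    exact M.iff_limsup
  · rintro n ⟨N, hN, h⟩
    by_contra hne
    have := M.step n N hN hne
    omega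
  · rw [conjecture_iff M]
    exact M.iff_gap

end Pool.Agent.Results.MP_56e040_nt.ZeroOneLaw
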